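import Pool.Agent.H72.SBP.Targets

/-!
Module ECH of MP_3cf473_nt (SBP): echelon bases with entries at most one.
-/

open Module

namespace Pool.Agent.H35.SBP

open Pool.Agent.H72.SBP

theorem ech : T_ECH := by
  classical
  intro c U u hu
  let bs : Basis (Fin u) ℂ U := finBasisOfFinrankEq ℂ U hu
  let Mx : (Fin u → Fin c) → Matrix (Fin u) (Fin u) ℂ :=
    fun J => Matrix.of fun a b => (bs a : Fin c → ℂ) (J b)
  -- some `J` has nonzero determinant
  have hex : ∃ J : Fin u → Fin c, (Mx J).det ≠ 0 := by
    let B : Matrix (Fin u) (Fin c) ℂ := Matrix.of fun a j => (bs a : Fin c → ℂ) j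
    have hli : LinearIndependent ℂ B.row := by
      have h1 : LinearIndependent ℂ (fun a => (bs a : Fin c → ℂ)) := by
        have := bs.linearIndependent
        exact this.map' U.subtype (Submodule.ker_subtype U)
      exact h1
    have hrank : B.rank = u := by
      have := hli.rank_matrix
      simpa using this
    have hcol : finrank ℂ (Submodule.span ℂ (Set.range B.col)) = u := by
      have h := hrank
      rw [Matrix.rank_eq_finrank_span_cols] at h
      exact h
    obtain ⟨κ, a, hainj, hspan, hind⟩ := exists_linearIndependent' ℂ B.col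
    have hfin : Finite κ := Finite.of_injective a hainj
    have := Fintype.ofFinite κ
    have hcard : Fintype.card κ = u := by
      rw [← hcol, ← hspan, finrank_span_eq_card hind]
    let e : Fin u ≃ κ := (Fintype.equivFinOfCardEq hcard).symm
    refine ⟨fun b => a (e b), ?_⟩
    have hind2 : LinearIndependent ℂ (fun b : Fin u => B.col (a (e b))) :=
      hind.comp e e.injective
    have hcols : LinearIndependent ℂ (Mx (fun b => a (e b))).col := hind2
    have hun := Matrix.linearIndependent_cols_iff_isUnit.1 hcols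
    exact ((Matrix.isUnit_iff_isUnit_det _).1 hun).ne_zero
  -- choose the largest
  obtain ⟨J, -, hJ⟩ := Finset.exists_max_image (Finset.univ : Finset (Fin u → Fin c))
    (fun J => ‖(Mx J).det‖) ⟨hex.choose, Finset.mem_univ _⟩
  have hdet : (Mx J).det ≠ 0 := by
    obtain ⟨J', hJ'⟩ := hex
    have := hJ J' (Finset.mem_univ _)
    intro h0
    rw [h0, norm_zero] at this
    exact hJ' (norm_eq_zero.1 (le_antisymm this (norm_nonneg _)))
  let colI : Fin c → Fin u → ℂ := fun i a => (bs a : Fin c → ℂ) i
  let b : Fin u → Fin c → ℂ := fun s i => (Mx J).cramer (colI i) s / (Mx J).det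
  have hb : ∀ s i, ‖b s i‖ ≤ 1 := by
    intro s i
    have h1 : (Mx J).cramer (colI i) s = (Mx (Function.update J s i)).det := by
      rw [Matrix.cramer_apply]
      congr 1
      ext a b'
      simp only [Matrix.updateCol_apply, Mx, Matrix.of_apply, colI, Function.update_apply]
      split_ifs with h
      · rfl
      · rfl
    have h2 := hJ (Function.update J s i) (Finset.mem_univ _)
    simp only [b, h1, norm_div]
    rw [div_le_one (norm_pos_iff.2 hdet)]
    exact h2
  have hrow : ∀ i a, ∑ s, (bs a : Fin c → ℂ) (J s) * b s i = (bs a : Fin c → ℂ) i := by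
    intro i a
    have h1 := Matrix.mulVec_cramer (Mx J) (colI i)
    have h2 := congrFun h1 a
    simp only [Matrix.mulVec, dotProduct, Mx, Matrix.of_apply, Pi.smul_apply, smul_eq_mul, colI] at h2
    have h3 : ∑ s, (bs a : Fin c → ℂ) (J s) * b s i
        = (∑ s, (bs a : Fin c → ℂ) (J s) * (Mx J).cramer (colI i) s) / (Mx J).det := by
      rw [Finset.sum_div]
      refine Finset.sum_congr rfl fun s _ => ?_
      simp only [b]
      ring
    rw [h3]
    rw [div_eq_iff hdet]
    simp only [Mx, colI] at h2 ⊢
    rw [h2]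
    ring
  have hrep : ∀ v ∈ U, v = ∑ i, v (J i) • b i := by
    intro v hv
    have hrep2 : v = ∑ a, (bs.repr ⟨v, hv⟩ a) • (bs a : Fin c → ℂ) := by
      have := congrArg (Subtype.val) (bs.sum_repr ⟨v, hv⟩)
      simp only [Submodule.coe_sum, Submodule.coe_smul] at this
      exact this.symm
    have hvj : ∀ j, v j = ∑ a, (bs.repr ⟨v, hv⟩ a) * (bs a : Fin c → ℂ) j := by
      intro j
      have := congrFun hrep2 j
      simpa [Finset.sum_apply] using this
    funext i
    rw [Finset.sum_apply, hvj i]
    simp only [Pi.smul_apply, smul_eq_mul]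
    calc ∑ a, (bs.repr ⟨v, hv⟩ a) * (bs a : Fin c → ℂ) i
        = ∑ a, (bs.repr ⟨v, hv⟩ a) * ∑ s, (bs a : Fin c → ℂ) (J s) * b s i := by
          refine Finset.sum_congr rfl fun a _ => ?_
          rw [hrow i a]
      _ = ∑ s, (∑ a, (bs.repr ⟨v, hv⟩ a) * (bs a : Fin c → ℂ) (J s)) * b s i := by
          simp only [Finset.mul_sum, Finset.sum_mul]
          rw [Finset.sum_comm]
          refine Finset.sum_congr rfl fun s _ => Finset.sum_congr rfl fun a _ => ?_
          ring
      _ = ∑ s, v (J s) * b s i := by
          refine Finset.sum_congr rfl fun s _ => ?_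
          rw [← hvj (J s)]
  -- the coordinates J give an isomorphism
  let ρ : U →ₗ[ℂ] (Fin u → ℂ) := LinearMap.pi fun j => (LinearMap.proj (J j)).comp U.subtype
  have hinj : Function.Injective ρ := by
    rw [← LinearMap.ker_eq_bot, LinearMap.ker_eq_bot']
    intro v hv
    apply Subtype.ext
    rw [hrep v.1 v.2]
    refine Finset.sum_eq_zero fun i _ => ?_
    have : (v : Fin c → ℂ) (J i) = 0 := congrFun hv i
    rw [this, zero_smul]
  have hfr : finrank ℂ U = finrank ℂ (Fin u → ℂ) := by
    rw [hu]; simp
  have hsurj : Function.Surjective ρ :=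
    (LinearMap.injective_iff_surjective_of_finrank_eq_finrank hfr).1 hinj
  have hmem : ∀ i, b i ∈ U ∧ ∀ j, b i (J j) = if i = j then 1 else 0 := by
    intro i
    obtain ⟨w, hw⟩ := hsurj (fun j => if i = j then 1 else 0)
    have hw' : ∀ j, (w : Fin c → ℂ) (J j) = if i = j then 1 else 0 := fun j => congrFun hw j
    have h1 : (w : Fin c → ℂ) = b i := by
      rw [hrep w.1 w.2]
      simp only [hw']
      simp
    rw [← h1]
    exact ⟨w.2, hw'⟩
  exact ⟨J, b, fun i => (hmem i).1, fun i j => (hmem i).2 j, hb, hrep⟩

end Pool.Agent.H35.SBP
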